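import Pool.Agent.Y257.CU.Asm
import Pool.Agent.Y257.CU.Bar2
import Pool.Agent.Y257.CU.Disc

set_option autoImplicit false

/-! # Harmonic measure of boundary points lying in cusps of general shape (MP_400747_an)

The sharp condition on a nondecreasing gauge `φ` under which, for every domain, the set of the
boundary points near which the domain lies in copies of the cusp `{x > 0, |y| < φ x}` has harmonic
measure zero: it is `liminf φ x / √x = 0` at `0`. The powers `φ x = x ^ α`, `α > 1 / 2`, are a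
special case. -/

open Set Filter Topology Metric MeasureTheory
open scoped ENNReal OnePoint

namespace Pool.Agent.Results.MP_400747_an.AllGauges

open Pool.Agent.Helper311.Cusp Pool.Agent.Y257.CU

/-- **Main theorem.** Let `φ` be nondecreasing on `(0, ∞)` and `W_φ = {x + iy : x > 0, |y| < φ x}`;
`cuspG φ D = B_φ(D)` is the set of the finite boundary points `z₀` of `D` such that for some
`ε > 0` all components of `D ∩ {|z - z₀| < ε}` with `z₀` on the boundary lie in copies of `W_φ`
with vertex `z₀`.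
(1) `B_φ(D)` has harmonic measure zero for every domain `D` in the Riemann sphere whose boundary
has positive capacity if and only if `liminf φ x / √x = 0` as `x → 0`.
(2) Otherwise there is `r₀ > 0` such that for every disc `D` of radius `r ≤ r₀` the set `B_φ(D)` is
the whole boundary, of harmonic measure one.
(3) In particular the exponents `α > 0` such that the set for the power cusp
`{x > 0, |y| < x ^ α}` has harmonic measure zero for all these domains are exactly the
`α > 1 / 2`. -/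
theorem result :
    (∀ φ : ℝ → ℝ, MonotoneOn φ (Ioi 0) →
      ((∀ D : Set (OnePoint ℂ), IsOpen D → IsConnected D → HasPositiveCapacity (frontier D) →
          ∀ z ∈ D, harmonicMeasure D (cuspG φ D) z = 0) ↔
        ∀ c > 0, ∃ᶠ x in 𝓝[>] (0 : ℝ), φ x < c * √x)) ∧
    (∀ φ : ℝ → ℝ, (¬ ∀ c > 0, ∃ᶠ x in 𝓝[>] (0 : ℝ), φ x < c * √x) →
      ∃ r₀ > 0, ∀ r > 0, r ≤ r₀ → ∀ D : Set (OnePoint ℂ), D = ((↑) : ℂ → OnePoint ℂ) '' ball 0 r →
        IsOpen D ∧ IsConnected D ∧ HasPositiveCapacity (frontier D) ∧ cuspG φ D = frontier D ∧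
          ∀ z ∈ D, harmonicMeasure D (cuspG φ D) z = 1) ∧
    {α : ℝ | 0 < α ∧ ∀ D : Set (OnePoint ℂ), IsOpen D → IsConnected D →
      HasPositiveCapacity (frontier D) → ∀ z ∈ D, harmonicMeasure D (cuspPoints α D) z = 0}
      = Ioi (1 / 2 : ℝ) := by
  have hno : ∀ φ : ℝ → ℝ, (¬ ∀ c > 0, ∃ᶠ x in 𝓝[>] (0 : ℝ), φ x < c * √x) →
      ∃ r₀ > 0, ∀ r > 0, r ≤ r₀ → ∀ D : Set (OnePoint ℂ), D = ((↑) : ℂ → OnePoint ℂ) '' ball 0 r →
        IsOpen D ∧ IsConnected D ∧ HasPositiveCapacity (frontier D) ∧ cuspG φ D = frontier D ∧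
          ∀ z ∈ D, harmonicMeasure D (cuspG φ D) z = 1 := by
    intro φ h
    push Not at h
    obtain ⟨c, hc, h⟩ := h
    have h' : ∀ᶠ x in 𝓝[>] (0:ℝ), c * √x ≤ φ x := by
      simpa [Filter.not_frequently, not_lt] using h
    refine ⟨c ^ 2 / 2, by positivity, fun r hr hr2 D hD => ?_⟩
    subst hD
    exact disc_fails hc h' hr (by linarith)
  have hmain : ∀ φ : ℝ → ℝ, MonotoneOn φ (Ioi 0) →
      ((∀ D : Set (OnePoint ℂ), IsOpen D → IsConnected D → HasPositiveCapacity (frontier D) →
          ∀ z ∈ D, harmonicMeasure D (cuspG φ D) z = 0) ↔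
        ∀ c > 0, ∃ᶠ x in 𝓝[>] (0 : ℝ), φ x < c * √x) := by
    intro φ hφ
    constructor
    · intro hall
      by_contra hcon
      obtain ⟨r₀, hr₀, h⟩ := hno φ hcon
      obtain ⟨h1, h2, h3, -, h5⟩ := h r₀ hr₀ le_rfl _ rfl
      have hz : ((0:ℂ) : OnePoint ℂ) ∈ ((↑) : ℂ → OnePoint ℂ) '' ball 0 r₀ :=
        ⟨0, mem_ball_self hr₀, rfl⟩
      have := hall _ h1 h2 h3 _ hz
      rw [h5 _ hz] at this
      exact one_ne_zero this
    · intro hlow D hD _ hcap z hz
      unfold harmonicMeasure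
      rw [← nonpos_iff_eq_zero]
      apply le_of_forall_pos_le_add
      intro δ hδ
      rw [zero_add]
      obtain ⟨u, hu1, hu2, hu3⟩ := cusp_null (barrier hφ hlow) hD hcap hz hδ.ne'
      exact (iInf_le _ u).trans ((iInf_le _ hu1).trans ((iInf_le _ hu2).trans hu3))
  refine ⟨hmain, hno, ?_⟩
  ext α
  simp only [mem_ofPred_eq, mem_Ioi]
  have hpow : 0 < α → ((∀ c > 0, ∃ᶠ x in 𝓝[>] (0 : ℝ), x ^ α < c * √x) ↔ 1 / 2 < α) := by
    intro hα
    constructor
    · intro h
      by_contra hcon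
      push Not at hcon
      have h1 := (h 1 one_pos).and_eventually (Ioo_mem_nhdsGT (show (0:ℝ) < 1 by norm_num))
      obtain ⟨x, hx1, hx2⟩ := h1.exists
      rw [one_mul, Real.sqrt_eq_rpow] at hx1
      have := Real.rpow_le_rpow_of_exponent_ge hx2.1 hx2.2.le hcon
      linarith
    · intro hα2 c hc
      apply Filter.Eventually.frequently
      have ht : Tendsto (fun x : ℝ => x ^ (α - 1 / 2)) (𝓝[>] 0) (𝓝 0) := by
        have h1 : ContinuousAt (fun x : ℝ => x ^ (α - 1 / 2)) 0 :=
          Real.continuousAt_rpow_const _ _ (Or.inr (by linarith))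
        have h2 : Tendsto (fun x : ℝ => x ^ (α - 1 / 2)) (𝓝[>] 0) (𝓝 ((0:ℝ) ^ (α - 1 / 2))) :=
          h1.tendsto.mono_left nhdsWithin_le_nhds
        rwa [Real.zero_rpow (by linarith)] at h2
      filter_upwards [ht.eventually (gt_mem_nhds hc), self_mem_nhdsWithin] with x hx1 hx2
      have hx : (0:ℝ) < x := hx2
      rw [Real.sqrt_eq_rpow]
      have : x ^ α = x ^ (α - 1 / 2) * x ^ (1 / 2 : ℝ) := by
        rw [← Real.rpow_add hx]; congr 1; ring
      rw [this]
      exact mul_lt_mul_of_pos_right hx1 (Real.rpow_pos_of_pos hx _)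
  have heq : ∀ D : Set (OnePoint ℂ), cuspPoints α D = cuspG (fun x => x ^ α) D := fun D => rfl
  constructor
  · rintro ⟨hα, h⟩
    have hmono : MonotoneOn (fun x : ℝ => x ^ α) (Ioi 0) := by
      intro x hx y _ hxy
      exact Real.rpow_le_rpow (le_of_lt hx) hxy hα.le
    exact (hpow hα).mp ((hmain _ hmono).mp h)
  · intro hα
    have hα0 : 0 < α := by linarith
    have hmono : MonotoneOn (fun x : ℝ => x ^ α) (Ioi 0) := by
      intro x hx y _ hxy
      exact Real.rpow_le_rpow (le_of_lt hx) hxy hα0.le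
    exact ⟨hα0, (hmain _ hmono).mpr ((hpow hα0).mpr hα)⟩

end Pool.Agent.Results.MP_400747_an.AllGauges
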